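import Pool.Agent.Helper78.MG.Goals
import Pool.Agent.Helper83.CookLevin

/-!
# The verifier of the Merlin-Arthur game runs in polynomial time
-/

namespace Pool.Agent.Helper39.MG

open Pool.Agent.Helper81.CC Pool.Agent.Helper78.MG
open Pool.Agent.Helper83.CL (PT_eval)

theorem polyTime_cert : PolyTime cert := by
  unfold cert
  fun_prop

theorem ptv : Pool.Agent.Helper78.MG.PtvStmt := by
  intro W g p m U hW hg
  have hp : PolyTime (fun v : List Bool × List Bool × List Bool => p.eval v.1.length) :=
    PT_eval p (by fun_prop)
  have hm : PolyTime (fun v : List Bool × List Bool × List Bool => m.eval v.1.length) :=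
    PT_eval m (by fun_prop)
  have hU : PolyTime (fun v : List Bool × List Bool × List Bool => U.eval v.1.length) :=
    PT_eval U (by fun_prop)
  have hg' : PolyTime (fun v : List Bool × List Bool × List Bool => g v.1) :=
    PolyTime.comp hg (by fun_prop)
  have hnn : PolyTime (fun v : List Bool × List Bool × List Bool => nn (U.eval v.1.length)) := by
    unfold nn
    exact PolyTime.add (PolyTime.mul (PolyTime.const 6) (PolyTime.pow hU 2)) (PolyTime.const 1)
  have hc : PolyTime (fun v : List Bool × List Bool × List Bool => cert v.2.1) :=
    PolyTime.comp polyTime_cert (by fun_prop)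
  -- the inner predicate
  have hin : PolyTime (fun z : ((List Bool × List Bool × List Bool) × ℕ) × List Bool =>
      decide (z.2.length ≤ p.eval z.1.1.1.length) &&
        W (z.1.1.1, (cert z.1.1.2.1).1, z.2, blk (m.eval z.1.1.1.length) z.1.2 z.1.1.2.2)) := by
    have hp' : PolyTime (fun z : ((List Bool × List Bool × List Bool) × ℕ) × List Bool =>
        p.eval z.1.1.1.length) := PT_eval p (by fun_prop)
    have hm' : PolyTime (fun z : ((List Bool × List Bool × List Bool) × ℕ) × List Bool =>
        m.eval z.1.1.1.length) := PT_eval m (by fun_prop)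
    have hc' : PolyTime (fun z : ((List Bool × List Bool × List Bool) × ℕ) × List Bool =>
        cert z.1.1.2.1) := PolyTime.comp polyTime_cert (by fun_prop)
    have hb : PolyTime (fun z : ((List Bool × List Bool × List Bool) × ℕ) × List Bool =>
        blk (m.eval z.1.1.1.length) z.1.2 z.1.1.2.2) := by
      unfold blk
      exact PolyTime.take hm' (PolyTime.drop (PolyTime.mul (by fun_prop) hm') (by fun_prop))
    exact PolyTime.and (PolyTime.decide_le (by fun_prop) hp')
      (PolyTime.comp hW (PolyTime.pair (by fun_prop)
        (PolyTime.pair (PolyTime.fst hc') (PolyTime.pair (by fun_prop) hb))))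
  have hany : PolyTime (fun z : (List Bool × List Bool × List Bool) × ℕ =>
      (cert z.1.2.1).2.any fun y => decide (y.length ≤ p.eval z.1.1.length) &&
        W (z.1.1, (cert z.1.2.1).1, y, blk (m.eval z.1.1.length) z.2 z.1.2.2)) := by
    have hc' : PolyTime (fun z : (List Bool × List Bool × List Bool) × ℕ =>
        (cert z.1.2.1).2) := PolyTime.snd (PolyTime.comp polyTime_cert (by fun_prop))
    exact PolyTime.any (f := fun (z : (List Bool × List Bool × List Bool) × ℕ) (y : List Bool) =>
      decide (y.length ≤ p.eval z.1.1.length) &&
        W (z.1.1, (cert z.1.2.1).1, y, blk (m.eval z.1.1.length) z.2 z.1.2.2)) hc' hin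
  have hfil : PolyTime (fun v : List Bool × List Bool × List Bool =>
      (List.range (nn (U.eval v.1.length))).filter fun j =>
        (cert v.2.1).2.any fun y => decide (y.length ≤ p.eval v.1.length) &&
          W (v.1, (cert v.2.1).1, y, blk (m.eval v.1.length) j v.2.2)) :=
    PolyTime.filter (f := fun (v : List Bool × List Bool × List Bool) (j : ℕ) =>
      (cert v.2.1).2.any fun y => decide (y.length ≤ p.eval v.1.length) &&
          W (v.1, (cert v.2.1).1, y, blk (m.eval v.1.length) j v.2.2))
      (PolyTime.range hnn) hany
  unfold ver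
  refine PolyTime.and (PolyTime.decide_le (PolyTime.length (PolyTime.fst hc)) hp)
    (PolyTime.decide_le (PolyTime.mul (PolyTime.add (PolyTime.mul (PolyTime.const 8) hg')
      (PolyTime.const 3)) hnn) (PolyTime.mul (PolyTime.mul (PolyTime.const 8) hU)
        (PolyTime.length hfil)))

end Pool.Agent.Helper39.MG
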